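import Mathlib
import Pool.Agent.Run7.h836.Final

set_option autoImplicit false

/-!
The class of approximately subhomogeneous (ASH) C*-algebras is not Borel.

`Run7.h836.IsASH`, `Run7.h836.Ball1` and `Run7.h836.cstar` are defined in
`Pool/Agent/Run7/h836/Defs.lean`.
-/

namespace Pool.Agent.Results.MP_ed8316_lc.AshNotBorel

open Run7.h836

/-- For every separable infinite dimensional complex Hilbert space `H`, the set of sequences `γ` in
the unit ball of `B(H)` (with the product of the weak operator topologies) for which the C*-algebra
generated by `γ` is ASH is not a Borel set. -/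
theorem result (H : Type*) [NormedAddCommGroup H] [InnerProductSpace ℂ H] [CompleteSpace H]
    [TopologicalSpace.SeparableSpace H] (hinf : ¬ FiniteDimensional ℂ H) :
    ¬ @MeasurableSet (ℕ → Ball1 H) (borel (ℕ → Ball1 H)) {γ | IsASH (cstar γ)} :=
  ash_not_borel H hinf

end Pool.Agent.Results.MP_ed8316_lc.AshNotBorel
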